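import Pool.Agent.Helper63.XP.StA

/-! MODULE GDT of project XP (MP_c973ff_an): the one step graphs. -/

set_option autoImplicit false

namespace Pool.Agent.Helper47.XP

open Finset
open Pool.Agent.Helper63.XP

section card

variable {F : Type} [Field F] [Fintype F] [DecidableEq F]

/-- the annihilator of the subgroup `I` has `|F| / |I|` elements -/
theorem GDT_card (ψ : AddChar F ℂ) (hψ : ψ.IsPrimitive) (I : AddSubgroup F) (Z : Finset F)
    (hZ : ∀ y, y ∈ Z ↔ ∀ i ∈ I, ψ (i * y) = 1) : Z.card * Nat.card I = Fintype.card F := by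
  classical
  let _ : Fintype I := Fintype.ofFinite I
  have h1 : ∀ y : F, ∑ i : I, ψ ((i : F) * y) = if y ∈ Z then (Nat.card I : ℂ) else 0 := by
    intro y
    let χ : AddChar I ℂ :=
      ψ.compAddMonoidHom ((AddMonoidHom.mulRight y).comp I.subtype)
    have hχ : ∀ i : I, χ i = ψ ((i : F) * y) := fun i => rfl
    have h2 : (χ = 0) ↔ y ∈ Z := by
      rw [hZ]
      constructor
      · intro h i hi
        have := hχ ⟨i, hi⟩
        rw [h] at this
        simpa using this.symm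
      · intro h
        apply AddChar.ext
        intro i
        rw [hχ i, h i i.2]
        rfl
    have h3 := AddChar.sum_eq_ite χ
    simp only [hχ] at h3
    rw [h3, Nat.card_eq_fintype_card]
    by_cases h : y ∈ Z
    · rw [if_pos h, if_pos (h2.2 h)]
    · rw [if_neg h, if_neg (fun h' => h (h2.1 h'))]
  have h4 : ∑ y : F, ∑ i : I, ψ ((i : F) * y) = (Z.card : ℂ) * Nat.card I := by
    simp only [h1]
    rw [Finset.sum_ite_mem, Finset.univ_inter, Finset.sum_const, nsmul_eq_mul]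
  have h5 : ∑ y : F, ∑ i : I, ψ ((i : F) * y) = (Fintype.card F : ℂ) := by
    rw [Finset.sum_comm]
    have h6 : ∀ i : I, ∑ y : F, ψ ((i : F) * y) = if i = 0 then (Fintype.card F : ℂ) else 0 := by
      intro i
      have h7 := AddChar.sum_mulShift (i : F) hψ
      simp only [mul_comm _ (i : F)] at h7
      rw [h7]
      by_cases h : i = 0
      · subst h
        simp
      · have h' : (i : F) ≠ 0 := fun h' => h (Subtype.ext h')
        rw [if_neg h, if_neg h', Nat.cast_zero]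
    simp only [h6]
    rw [Finset.sum_ite_eq' univ (0 : I)]
    simp
  rw [h4] at h5
  exact_mod_cast h5

end card

section stp

variable {F : Type} [Field F] [Fintype F] [DecidableEq F]

/-- the children -/
def GDTch (I : AddSubgroup F) (w : ℕ) (v : I × (Fin w → F)) : Finset (F × (Fin w → F)) :=
  univ.filter fun u => u.2 = v.2 + (v.1 : F) • vc w u.1

theorem GDT_mem (I : AddSubgroup F) (w : ℕ) (v : I × (Fin w → F)) (u : F × (Fin w → F)) :
    u ∈ GDTch I w v ↔ u.2 = v.2 + (v.1 : F) • vc w u.1 := by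
  unfold GDTch
  rw [Finset.mem_filter]
  exact ⟨fun h => h.2, fun h => ⟨mem_univ _, h⟩⟩

theorem GDT_card_ch (I : AddSubgroup F) (w : ℕ) (v : I × (Fin w → F)) :
    (GDTch I w v).card = Fintype.card F := by
  rw [← Finset.card_univ]
  refine Finset.card_bij' (fun u _ => u.1) (fun x _ => (x, v.2 + (v.1 : F) • vc w x))
    (fun _ _ => mem_univ _) (fun x _ => (GDT_mem I w v _).2 rfl) ?_ (fun _ _ => rfl)
  intro u hu
  have := (GDT_mem I w v u).1 hu
  exact Prod.ext rfl this.symm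

theorem GDT_share (I : AddSubgroup F) (w : ℕ) (hw : 2 ≤ w) (u v : I × (Fin w → F)) (huv : u ≠ v) :
    (GDTch I w u ∩ GDTch I w v).card ≤ 1 := by
  rw [Finset.card_le_one]
  intro a ha b hb
  rw [Finset.mem_inter, GDT_mem, GDT_mem] at ha hb
  obtain ⟨ha1, ha2⟩ := ha
  obtain ⟨hb1, hb2⟩ := hb
  have h0 : (⟨0, by omega⟩ : Fin w) ≠ ⟨1, by omega⟩ := by
    intro h
    have := congrArg Fin.val h
    simp at this
  have e1 : ∀ x : F, vc w x ⟨0, by omega⟩ = 1 := fun x => pow_zero x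
  have e2 : ∀ x : F, vc w x ⟨1, by omega⟩ = x := fun x => pow_one x
  have hne : (u.1 : F) ≠ (v.1 : F) := by
    intro h
    apply huv
    refine Prod.ext (Subtype.ext h) ?_
    rw [ha1, h] at ha2
    exact add_right_cancel ha2
  have h1 : ∀ j, u.2 j + (u.1 : F) * vc w a.1 j = v.2 j + (v.1 : F) * vc w a.1 j := fun j => by
    have := congrFun (ha1.symm.trans ha2) j
    simpa using this
  have h2 : ∀ j, u.2 j + (u.1 : F) * vc w b.1 j = v.2 j + (v.1 : F) * vc w b.1 j := fun j => by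
    have := congrFun (hb1.symm.trans hb2) j
    simpa using this
  have h3 : a.1 = b.1 := by
    have h4 := h1 ⟨1, by omega⟩
    have h5 := h2 ⟨1, by omega⟩
    rw [e2] at h4 h5
    have h6 : ((u.1 : F) - v.1) * (a.1 - b.1) = 0 := by linear_combination h4 - h5
    rcases mul_eq_zero.1 h6 with h7 | h7
    · exact absurd (sub_eq_zero.1 h7) hne
    · exact sub_eq_zero.1 h7
  refine Prod.ext h3 ?_
  rw [ha1, hb1, h3]

theorem GDT_par (I : AddSubgroup F) [Fintype I] (w : ℕ) (c : F × (Fin w → F)) :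
    (univ.filter fun v : I × (Fin w → F) => c ∈ GDTch I w v).card ≤ Fintype.card I := by
  rw [← Finset.card_univ (α := I)]
  refine Finset.card_le_card_of_injOn (fun v => v.1) (fun _ _ => mem_univ _) ?_
  intro v hv v' hv' h
  have h1 := (GDT_mem I w v c).1 (Finset.mem_filter.1 (Finset.mem_coe.1 hv)).2
  have h2 := (GDT_mem I w v' c).1 (Finset.mem_filter.1 (Finset.mem_coe.1 hv')).2
  have h3 : v.1 = v'.1 := h
  refine Prod.ext h3 ?_
  rw [h1, h3] at h2
  exact add_right_cancel h2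

theorem GDT_l2 (hFpl : StFpl) (ψ : AddChar F ℂ) (hψ : ψ.IsPrimitive) (I : AddSubgroup F)
    [Fintype I] (H : F → F) (w : ℕ) (c : ℝ)
    (hH : ∀ (κ : Fin w → F) (y : F),
      (Nat.card {x : F // ∀ i ∈ I, ψ (i * (H x + ∑ a, κ a * x ^ (a : ℕ) - y)) = 1} : ℝ) *
        Nat.card I ≤ c) (y : I × (Fin w → F) → ℂ) :
    ∑ u : F × (Fin w → F), ‖∑ v ∈ univ.filter (fun v => u ∈ GDTch I w v),
      ψ (-((v.1 : F) * H u.1)) * y v‖ ^ 2 ≤ c * ∑ v, ‖y v‖ ^ 2 := by
  classical
  let g : F × (Fin w → F) → ℂ := fun v => if h : v.1 ∈ I then y (⟨v.1, h⟩, v.2) else 0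
  have hg : ∀ (i : I) (s : Fin w → F), g ((i : F), s) = y (i, s) := fun i s => by
    simp [g]
  have hg0 : ∀ v, v.1 ∉ I → g v = 0 := fun v hv => by
    simp [g, hv]
  have hsum : ∀ f : F → ℂ, (∀ i, i ∉ I → f i = 0) → ∑ i : F, f i = ∑ i : I, f i := by
    intro f hf
    have h1 : ∑ i : F, f i = ∑ i ∈ univ.filter (fun i => i ∈ I), f i := by
      rw [Finset.sum_filter]
      refine Finset.sum_congr rfl fun i _ => ?_
      by_cases h : i ∈ I
      · rw [if_pos h]
      · rw [if_neg h, hf i h]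
    rw [h1]
    exact Finset.sum_subtype _ (fun i => by simp) f
  have hsumR : ∀ f : F → ℝ, (∀ i, i ∉ I → f i = 0) → ∑ i : F, f i = ∑ i : I, f i := by
    intro f hf
    have h1 : ∑ i : F, f i = ∑ i ∈ univ.filter (fun i => i ∈ I), f i := by
      rw [Finset.sum_filter]
      refine Finset.sum_congr rfl fun i _ => ?_
      by_cases h : i ∈ I
      · rw [if_pos h]
      · rw [if_neg h, hf i h]
    rw [h1]
    exact Finset.sum_subtype _ (fun i => by simp) f
  have h1 := hFpl F ψ w I H c hψ hH g hg0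
  have e1 : ∑ v, ‖g v‖ ^ 2 = ∑ v, ‖y v‖ ^ 2 := by
    rw [Fintype.sum_prod_type, Fintype.sum_prod_type]
    rw [hsumR (fun i => ∑ s : Fin w → F, ‖g (i, s)‖ ^ 2)]
    · refine Finset.sum_congr rfl fun i _ => Finset.sum_congr rfl fun s _ => ?_
      rw [hg]
    · intro i hi
      refine Finset.sum_eq_zero fun s _ => ?_
      rw [hg0 _ hi, norm_zero]
      norm_num
  have e2 : ∀ u : F × (Fin w → F), ∑ v ∈ univ.filter (fun v => u ∈ GDTch I w v),
      ψ (-((v.1 : F) * H u.1)) * y v =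
      ∑ i : F, ψ (-(i * H u.1)) * g (i, u.2 - i • vc w u.1) := by
    intro u
    rw [hsum (fun i => ψ (-(i * H u.1)) * g (i, u.2 - i • vc w u.1))]
    · rw [Finset.sum_filter, Fintype.sum_prod_type]
      refine Finset.sum_congr rfl fun i _ => ?_
      rw [hg]
      have h2 : ∀ s : Fin w → F, (u ∈ GDTch I w (i, s)) ↔ s = u.2 - (i : F) • vc w u.1 := by
        intro s
        rw [GDT_mem]
        constructor
        · intro h
          rw [h]
          simp
        · intro h
          rw [h]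
          simp
      simp only [h2]
      rw [Finset.sum_ite_eq' univ]
      simp
    · intro i hi
      rw [hg0 _ hi, mul_zero]
  rw [e1] at h1
  simp only [e2]
  exact h1

theorem GDT_core (hCor : StCor) (I : AddSubgroup F) (r J Q : ℕ) (hr : 1 ≤ r)
    (hJ : r ≤ J) (hQ : r.factorial * Q < (J - r) ^ r)
    (T : Finset (I × (Fin (2 * r) → F))) (U : Finset (F × (Fin (2 * r) → F))) (hT : T.Nonempty)
    (h1 : ∀ t ∈ T, J ≤ (GDTch I (2 * r) t ∩ U).card)
    (h2 : ∀ u ∈ U, 2 ≤ (T.filter fun t => u ∈ GDTch I (2 * r) t).card) : Q < U.card := by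
  classical
  let φ : I × (Fin (2 * r) → F) → F × (Fin (2 * r) → F) := fun t => ((t.1 : F), t.2)
  have hφ : Function.Injective φ := by
    intro a b hab
    have h3 : ((a.1 : F), a.2) = ((b.1 : F), b.2) := hab
    rw [Prod.mk.injEq] at h3
    exact Prod.ext (Subtype.ext h3.1) h3.2
  refine hCor F r J Q (T.image φ) U hr hJ hQ (hT.image φ) ?_ ?_
  · intro t' ht'
    obtain ⟨t, ht, rfl⟩ := Finset.mem_image.1 ht'
    refine (h1 t ht).trans (Finset.card_le_card ?_)
    intro u hu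
    rw [Finset.mem_inter, GDT_mem] at hu
    exact Finset.mem_filter.2 ⟨hu.2, hu.1⟩
  · intro u hu
    refine (h2 u hu).trans ?_
    rw [← Finset.card_image_of_injective _ hφ]
    refine Finset.card_le_card ?_
    intro t' ht'
    obtain ⟨t, ht, rfl⟩ := Finset.mem_image.1 ht'
    rw [Finset.mem_filter, GDT_mem] at ht
    exact Finset.mem_filter.2 ⟨Finset.mem_image_of_mem φ ht.1, ht.2⟩

/-- the graph -/
theorem GDT_stp (hCor : StCor) (hFpl : StFpl)
    (ψ : AddChar F ℂ) (hψ : ψ.IsPrimitive) (I : AddSubgroup F) (H : F → F) (r q m : ℕ) (hr : 1 ≤ r)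
    (c : ℝ) (hq : Fintype.card F = q) (hm : Nat.card I = m)
    (hH : ∀ (κ : Fin (2 * r) → F) (y : F),
      (Nat.card {x : F // ∀ i ∈ I, ψ (i * (H x + ∑ a, κ a * x ^ (a : ℕ) - y)) = 1} : ℝ) *
        Nat.card I ≤ c)
    (J Q : ℕ) (hJ : r ≤ J) (hQ : r.factorial * Q < (J - r) ^ r) :
    ∃ (V W : Type) (_ : Fintype V) (_ : DecidableEq V) (_ : Fintype W) (_ : DecidableEq W),
      Nonempty (Stp V W q m (q ^ (2 * r)) J Q c) := by
  classical
  let _ : Fintype I := Fintype.ofFinite I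
  have hm' : Fintype.card I = m := by rw [← hm, Nat.card_eq_fintype_card]
  refine ⟨I × (Fin (2 * r) → F), F × (Fin (2 * r) → F), inferInstance, inferInstance,
    inferInstance, inferInstance, ⟨{
      ch := GDTch I (2 * r)
      σ := fun u v => ψ (-((v.1 : F) * H u.1))
      cardV := ?_
      cardW := ?_
      card_ch := ?_
      card_par := ?_
      share := ?_
      uni := ?_
      l2 := ?_
      core := ?_ }⟩⟩
  · rw [Fintype.card_prod, hm', Fintype.card_fun, Fintype.card_fin, hq]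
  · rw [Fintype.card_prod, hq, Fintype.card_fun, Fintype.card_fin, hq]
  · intro v
    rw [GDT_card_ch, hq]
  · intro c
    refine le_trans (le_of_eq ?_) ((GDT_par I (2 * r) c).trans hm'.le)
    congr
  · intro u v huv
    refine le_trans (le_of_eq ?_) (GDT_share I (2 * r) (by omega) u v huv)
    congr
  · intro u v
    exact AddChar.norm_apply ψ _
  · intro y
    refine le_trans (le_of_eq ?_) (GDT_l2 hFpl ψ hψ I H (2 * r) c hH y)
    congr
  · intro T U hT h1 h2
    refine GDT_core hCor I r J Q hr hJ hQ T U hT (fun t ht => (h1 t ht).trans (le_of_eq ?_))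
      (fun u hu => (h2 u hu).trans (le_of_eq ?_))
    · congr
    · congr

end stp

theorem GDT_num (c0 : ℝ) (hc0 : 0 < c0) (A : ℕ) :
    ∃ N0 : ℕ, 1 ≤ N0 ∧ ∀ n : ℕ, N0 ≤ n → (n : ℝ) ^ A * Real.exp (-c0 * n) < 1 := by
  have h := (tendsto_rpow_mul_exp_neg_mul_atTop_nhds_zero (A : ℝ) c0 hc0).comp
    tendsto_natCast_atTop_atTop
  have h1 := (h.eventually (gt_mem_nhds zero_lt_one)).and (Filter.eventually_ge_atTop 1)
  obtain ⟨N0, hN0⟩ := Filter.eventually_atTop.1 h1
  refine ⟨max N0 1, le_max_right _ _, fun n hn => ?_⟩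
  have h2 := (hN0 n (le_trans (le_max_left _ _) hn)).1
  simpa only [Function.comp, Real.rpow_natCast] using h2

theorem hGDT : StGdt := by
  intro hCor hFpl hRnh r e e' δ hr he' hee hδ
  obtain ⟨c0, hc0, hR⟩ := hRnh δ hδ
  obtain ⟨N0, hN1, hN0⟩ := GDT_num c0 hc0 (e * (2 * r + 1))
  refine ⟨N0, fun q0 hq0 hp J Q hJ hQ => ?_⟩
  classical
  have : Fact q0.Prime := ⟨hp⟩
  let _ : Fintype (GaloisField q0 e) := Fintype.ofFinite _
  have hcard : Fintype.card (GaloisField q0 e) = q0 ^ e := by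
    rw [← Nat.card_eq_fintype_card]
    exact GaloisField.card q0 e (by omega)
  obtain ⟨ψ, hψ1⟩ := (AddChar.exists_apply_ne_zero (a := (1 : GaloisField q0 e))).2 one_ne_zero
  have hψ : ψ.IsPrimitive := AddChar.IsPrimitive.of_ne_one (by
    rintro rfl
    exact hψ1 rfl)
  obtain ⟨K, hK⟩ := Sylow.exists_subgroup_card_pow_prime
    (G := Multiplicative (GaloisField q0 e)) q0 (n := e') (by
      have : Nat.card (Multiplicative (GaloisField q0 e)) = q0 ^ e := GaloisField.card q0 e (by omega)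
      rw [this]
      exact pow_dvd_pow _ hee.le)
  let I : AddSubgroup (GaloisField q0 e) := Subgroup.toAddSubgroup' K
  have hI : Nat.card I = q0 ^ e' := hK
  let Z : Finset (GaloisField q0 e) := univ.filter fun y => ∀ i ∈ I, ψ (i * y) = 1
  have hZ : ∀ y, y ∈ Z ↔ ∀ i ∈ I, ψ (i * y) = 1 := fun y => by simp [Z]
  have hZc : Z.card = q0 ^ (e - e') := by
    have h1 := GDT_card ψ hψ I Z hZ
    rw [hI, hcard] at h1
    have h2 : q0 ^ (e - e') * q0 ^ e' = q0 ^ e := by
      rw [← pow_add, Nat.sub_add_cancel hee.le]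
    exact Nat.eq_of_mul_eq_mul_right (pow_pos hp.pos e') (h1.trans h2.symm)
  have hmul : q0 ^ (e - e') * q0 ^ e' = Fintype.card (GaloisField q0 e) := by
    rw [hcard, ← pow_add, Nat.sub_add_cancel hee.le]
  have hq1 : 1 ≤ q0 := hN1.trans hq0
  have hnum : ((Fintype.card (GaloisField q0 e) : ℕ) : ℝ) ^ (2 * r + 1) *
      Real.exp (-c0 * ((q0 ^ (e - e') : ℕ) : ℝ)) < 1 := by
    refine lt_of_le_of_lt ?_ (hN0 q0 hq0)
    rw [hcard, Nat.cast_pow, ← pow_mul]
    refine mul_le_mul_of_nonneg_left ?_ (by positivity)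
    apply Real.exp_le_exp.2
    have h3 : (q0 : ℝ) ≤ ((q0 ^ (e - e') : ℕ) : ℝ) := by
      exact_mod_cast Nat.le_self_pow (by omega) q0
    have h4 := mul_le_mul_of_nonneg_left h3 hc0.le
    linarith
  obtain ⟨H, hH⟩ := hR (GaloisField q0 e) (2 * r) (q0 ^ (e - e')) (q0 ^ e') Z hZc hmul hnum
  refine GDT_stp hCor hFpl ψ hψ I H r (q0 ^ e) (q0 ^ e') hr ((1 + δ) * (q0 : ℝ) ^ e) hcard hI ?_
    J Q hJ hQ
  intro κ y
  have h5 := hH κ y
  have h6 : Nat.card {x : GaloisField q0 e //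
      ∀ i ∈ I, ψ (i * (H x + ∑ a, κ a * x ^ (a : ℕ) - y)) = 1} =
      (univ.filter fun x : GaloisField q0 e => H x + ∑ a, κ a * x ^ (a : ℕ) - y ∈ Z).card := by
    rw [Nat.card_eq_fintype_card, Fintype.card_subtype]
    congr 1
    ext x
    simp only [Finset.mem_filter, mem_univ, true_and, hZ]
  rw [h6, hI]
  have h7 : (q0 : ℝ) ^ e = ((q0 ^ (e - e') : ℕ) : ℝ) * ((q0 ^ e' : ℕ) : ℝ) := by
    rw [← Nat.cast_mul, hmul, hcard, Nat.cast_pow]
  rw [h7, ← mul_assoc]
  exact mul_le_mul_of_nonneg_right h5 (Nat.cast_nonneg _)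

end Pool.Agent.Helper47.XP
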